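import Pool.Agent.Results.MP_89a3f8_ag.TerminationOfFlips
import Pool.Agent.Run7.h530.FI.Desc

/-!
# Termination of flips on the images of covers of products of projective spaces

Let `K` be the function field of an abelian cover `Y` of a product of projective spaces which is
branched along smooth hypersurfaces of the factors, and `X` a toroidal modification of `Y`, given by a
fan, as in the starting result `MP_89a3f8_ag.TerminationOfFlips`, whose definitions are used here.

We consider the varieties `X_0` with a dominant, generically finite morphism (or a dominant rational
map) `X ⇢ X_0`, for instance the quotients of `X` by ANY finite groups of automorphisms (permutations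
of equal factors, automorphisms of the forms `F i`, ...): the function field `K0` of `X_0` is a subfield
of `K` and `K / K0` is finite. On `X_0` there are given divisors `D 1, ..., D p` with the coefficients
`δ i P` of their pullbacks at the prime divisors `P` over `X_0`; a common multiple of the `D i` is
Cartier (`M * δ i P` is an integer). We assume that the pullback of `D i` to the models of `K` is the sum
of a toroidal divisor on `X` and of the divisor of a rational function `g i`: the coefficient of the
pullback at a prime divisor `Q` over `P` with the ramification index `e` is `e * δ i P`. If all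
`n i ≥ 3` and `X_0` is `ℚ`-factorial, this can be achieved for divisors `D i` which generate the divisor
classes of `X_0` up to multiples, since then all divisors on `X` are toroidal up to linear equivalence
and multiples (Lefschetz; this remark is not used and not proved here).

**The theorem.** There is a number `B` such that among any `B + 1` small modifications of `X_0` there
are two with the same coefficients of the strict transforms of the `D i`, and such that every sequence
of flips for every real combination `∑ i, w i * D i` has less than `B` steps. So if all `n i ≥ 3` and
`X_0` is `ℚ`-factorial, every sequence of `K_X + Δ` flips over any base `S` which starts at `X_0` is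
finite, for all pairs `(X_0, Δ)`; this answers the question for these `X_0`. The starting result is the
case `X_0 = X`. Its method needs the toroidal structure; the quotients of `X` by nonabelian groups are
not toroidal and not covers of products of projective spaces.

**The proof.** The ring of the sections of the integral combinations of the pullbacks is finitely
generated by the theorem of the starting tree. It is integral over the ring of the sections of the
integral combinations of the `D i` on `X_0`: if `f` is a section of the pullback of `D`, then the
coefficients of the minimal polynomial of `f ^ M` over `K0` are sections of multiples of `D`, since `f`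
has bounded poles at all places over a place of `K0` (`coef_sec`). By the lemma of Artin and Tate the
latter ring is finitely generated (`fg_desc`), and the theorem of the starting tree on rings of
sections applies (`term_small`).
-/

set_option autoImplicit false

open FF MvPolynomial Pool.Agent.W602.GT
open Pool.Agent.Results.MP_89a3f8_ag.TerminationOfFlips

namespace Pool.Agent.Results.MP_89a3f8_ag.FiniteImages

/-- **Termination of flips.** Let `K` be the function field of an abelian cover `Y` of the product of
the projective `n i`-spaces which is branched along smooth hypersurfaces `F i = 0` of the factors, and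
`X` the toroidal modification of `Y` which is given by `fan`. Let `K0` be a subfield of `K` over which
`K` is finite, and let `D i`, `i < p`, be divisors with the coefficients `δ i` over `K0`, a multiple
`M * D i` of which is Cartier, such that the pullback of `D i` to `K` is the sum of the toroidal divisor
on `X` with the degrees `β i t` and the coefficients `c i` and of the divisor of the function `g i`.
There is a number `B` such that
(1) among any `B + 1` small modifications there are two with the same coefficients of all the strict
transforms of the `D i` at all prime divisors over `K0`;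
(2) every sequence of flips for every real combination of the `D i` has less than `B` steps. -/
theorem result (r N R p : ℕ) (n d : Fin r → ℕ) (hr : 1 ≤ r) (hn : ∀ i, 1 ≤ n i)
    (hd : ∀ i, 1 ≤ d i) (hN : N = ∑ i, n i)
    (F : ∀ i, MvPolynomial (Fin (n i + 1)) ℂ) (hF : ∀ i, (F i).IsHomogeneous (d i))
    (hs : ∀ i, Smooth (F i)) (m : Fin R → ℕ) (hm : ∀ j, 1 ≤ m j) (a : Fin R → Fin r → ℕ)
    (hdiv : ∀ j i, m j ∣ a j i * d i)
    (K : Type) [Field K] [Algebra ℂ K] (x : ∀ i, Fin (n i + 1) → K) (hx0 : ∀ i, x i 0 ≠ 0)
    (hbas : IsTranscendenceBasis ℂ (affine x)) (z : Fin R → K)
    (hz : ∀ j, z j ^ m j = ∏ i, (aeval (x i) (F i) / x i 0 ^ d i) ^ a j i)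
    (hgen : IntermediateField.adjoin ℂ (Set.range (affine x) ∪ Set.range z) = ⊤)
    (fan : Finset (Finset (Fin r → ℕ))) (hfan : IsFan m a fan)
    (c : Fin p → (Fin r → ℕ) → ℚ) (hc0 : ∀ i, c i 0 = 0) (β : Fin p → Fin r → ℤ)
    (u : Finset (Fin r → ℕ) → Fin p → Fin r → ℚ)
    (hlin : ∀ σ ∈ fan, ∀ i v, Admissible m a v → InCone σ v → - c i v = ∑ k, u σ i k * v k)
    (K0 : Type) [Field K0] [Algebra ℂ K0] [Algebra K0 K] [IsScalarTower ℂ K0 K]
    [FiniteDimensional K0 K] (δ : Fin p → Place ℂ K0 → ℚ) (M : ℕ) (hM : 1 ≤ M)
    (hint : ∀ i P, Divisorial N P → ∃ b : ℤ, (M : ℚ) * δ i P = b)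
    (g : Fin p → K) (hg : ∀ i, g i ≠ 0)
    (hδ : ∀ (i : Fin p) (Q : Place ℂ K) (P : Place ℂ K0) (e : ℕ), Over Q P e → Divisorial N Q →
      (e : ℚ) * δ i P = coefficient F d x (c i) (β i) Q + Q.ord (g i)) :
    ∃ B : ℕ,
      (∀ δs : Fin (B + 1) → Fin p → Place ℂ K0 → ℚ, (∀ j, IsSmallModification N δ (δs j)) →
        ∃ j j' : Fin (B + 1), j < j' ∧ ∀ P : Place ℂ K0, Divisorial N P →
          ∀ i, δs j i P = δs j' i P) ∧
      ∀ (w : Fin p → ℝ) (L : ℕ) (δs : ℕ → Fin p → Place ℂ K0 → ℚ),
        (∀ j ≤ L, IsSmallModification N δ (δs j)) →
        (∀ j < L, IsFlip N w (δs j) (δs (j + 1))) → L < B := by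
  have hfg := Pool.Agent.Q57.CX.main_cox (N := N) hr hn hN hd hF hs hx0 hbas hm hdiv hz hgen
    (S := fan) ⟨hfan.adm, hfan.full, hfan.cover⟩ hc0 (u := u) hlin (β := β)
    (δ := fun i P => coefficient F d x (c i) (β i) P) (fun _ _ => rfl)
  obtain ⟨B, h1, h2⟩ := Pool.Agent.Q57.HK.term_small
    (Run7.h530.FI.fg_desc hg (fun i Q P e h hQ => hδ i Q P e h hQ) hM hint hfg)
  exact ⟨B, fun δs h => h1 δs fun j => ⟨(h j).2.choose, (h j).1, (h j).2.choose_spec⟩,
      fun w L δs h hf => h2 w L δs (fun j hj => ⟨(h j hj).2.choose, (h j hj).1,
        (h j hj).2.choose_spec⟩) hf⟩

end Pool.Agent.Results.MP_89a3f8_ag.FiniteImages
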